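import Mathlib

/-!
The order of a subgroup of a product of cyclic groups by an echelon form.
-/

set_option autoImplicit false

namespace Pool.Agent.ABq

/-- The least positive `d` which is `m` or the representative of an element of `B`. -/
noncomputable def lead (m : ℕ) (B : Set (ZMod m)) : ℕ :=
  sInf {d | 0 < d ∧ (d = m ∨ ∃ x ∈ B, x.val = d)}

theorem lead_spec (m : ℕ) [NeZero m] (B : Set (ZMod m)) :
    0 < lead m B ∧ (lead m B = m ∨ ∃ x ∈ B, x.val = lead m B) :=
  Nat.sInf_mem (s := {d | 0 < d ∧ (d = m ∨ ∃ x ∈ B, x.val = d)}) ⟨m, NeZero.pos m, Or.inl rfl⟩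

theorem lead_le {m : ℕ} {B : Set (ZMod m)} {d : ℕ} (h : 0 < d ∧ (d = m ∨ ∃ x ∈ B, x.val = d)) :
    lead m B ≤ d := Nat.sInf_le h

theorem lead_mem (m : ℕ) [NeZero m] (B : AddSubgroup (ZMod m)) :
    ((lead m (B : Set (ZMod m)) : ℕ) : ZMod m) ∈ B := by
  obtain ⟨-, h | ⟨x, hx, h⟩⟩ := lead_spec m (B : Set (ZMod m))
  · rw [h, ZMod.natCast_self]
    exact B.zero_mem
  · rw [← h, ZMod.natCast_zmod_val]
    exact hx

theorem lead_dvd_of_mem (m : ℕ) [NeZero m] (B : AddSubgroup (ZMod m)) (n : ℕ)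
    (hn : (n : ZMod m) ∈ B) : lead m (B : Set (ZMod m)) ∣ n := by
  set d := lead m (B : Set (ZMod m)) with hd
  have hd0 : 0 < d := (lead_spec m (B : Set (ZMod m))).1
  have hdm : d ≤ m := lead_le ⟨NeZero.pos m, Or.inl rfl⟩
  by_contra hcon
  have hr : 0 < n % d := Nat.pos_of_ne_zero fun h => hcon (Nat.dvd_of_mod_eq_zero h)
  have hrd : n % d < d := Nat.mod_lt _ hd0
  have h1 : ((n % d : ℕ) : ZMod m) ∈ B := by
    have h2 : ((n % d : ℕ) : ZMod m) = (n : ZMod m) - (n / d) • ((d : ℕ) : ZMod m) := by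
      have h3 : (n : ZMod m) = ((d * (n / d) + n % d : ℕ) : ZMod m) := by
        rw [Nat.div_add_mod]
      rw [h3]
      push_cast
      rw [nsmul_eq_mul]
      ring
    rw [h2]
    exact B.sub_mem hn (B.nsmul_mem (lead_mem m B) _)
  have h4 : d ≤ n % d := by
    refine lead_le ⟨hr, Or.inr ⟨_, h1, ?_⟩⟩
    rw [ZMod.val_natCast]
    exact Nat.mod_eq_of_lt (hrd.trans_le hdm)
  exact absurd h4 (not_le.2 hrd)

theorem lead_dvd (m : ℕ) [NeZero m] (B : AddSubgroup (ZMod m)) :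
    lead m (B : Set (ZMod m)) ∣ m :=
  lead_dvd_of_mem m B m (by
    rw [ZMod.natCast_self]
    exact B.zero_mem)

theorem card_eq (m : ℕ) [NeZero m] (B : AddSubgroup (ZMod m)) :
    Nat.card B = m / lead m (B : Set (ZMod m)) := by
  set d := lead m (B : Set (ZMod m)) with hd
  have h1 : B = AddSubgroup.zmultiples ((d : ℕ) : ZMod m) := by
    apply le_antisymm
    · intro x hx
      have h2 : ((x.val : ℕ) : ZMod m) ∈ B := by
        rw [ZMod.natCast_zmod_val]
        exact hx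
      obtain ⟨c, hc⟩ := lead_dvd_of_mem m B x.val h2
      rw [AddSubgroup.mem_zmultiples_iff]
      refine ⟨c, ?_⟩
      rw [← ZMod.natCast_zmod_val x, hc]
      push_cast
      simp [mul_comm, hd]
    · rw [AddSubgroup.zmultiples_le]
      exact lead_mem m B
  have h2 : Nat.card B = addOrderOf ((d : ℕ) : ZMod m) := by
    rw [h1, Nat.card_zmultiples]
  rw [h2, ZMod.addOrderOf_coe _ (NeZero.ne m), Nat.gcd_eq_right (lead_dvd m B)]

section

variable {k : ℕ} {m : Fin k → ℕ}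

/-- the elements of `H` whose first `i` coordinates vanish -/
def tailSub (H : AddSubgroup (∀ i, ZMod (m i))) (i : ℕ) : AddSubgroup (∀ i, ZMod (m i)) where
  carrier := {x | x ∈ H ∧ ∀ j : Fin k, j.1 < i → x j = 0}
  add_mem' := fun {a b} ha hb => ⟨H.add_mem ha.1 hb.1, fun j hj => by
    rw [Pi.add_apply, ha.2 j hj, hb.2 j hj, add_zero]⟩
  zero_mem' := ⟨H.zero_mem, fun _ _ => rfl⟩
  neg_mem' := fun {a} ha => ⟨H.neg_mem ha.1, fun j hj => by
    rw [Pi.neg_apply, ha.2 j hj, neg_zero]⟩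

theorem mem_tailSub {H : AddSubgroup (∀ i, ZMod (m i))} {i : ℕ} {x : ∀ i, ZMod (m i)} :
    x ∈ tailSub H i ↔ x ∈ H ∧ ∀ j : Fin k, j.1 < i → x j = 0 := Iff.rfl

/-- the leading coordinates -/
noncomputable def ld (H : AddSubgroup (∀ i, ZMod (m i))) (i : Fin k) : ℕ :=
  sInf {d | 0 < d ∧ (d = m i ∨ ∃ x ∈ H, (∀ j, j < i → x j = 0) ∧ (x i).val = d)}

theorem ld_eq (H : AddSubgroup (∀ i, ZMod (m i))) (i : Fin k) :
    ld H i = lead (m i) ((tailSub H i.1).map (Pi.evalAddMonoidHom _ i) : Set (ZMod (m i))) := by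
  rw [ld, lead]
  congr 1
  ext d
  constructor
  · rintro ⟨h1, h2 | ⟨x, hx, h3, h4⟩⟩
    · exact ⟨h1, Or.inl h2⟩
    · exact ⟨h1, Or.inr ⟨x i, ⟨x, ⟨hx, fun j hj => h3 j hj⟩, rfl⟩, h4⟩⟩
  · rintro ⟨h1, h2 | ⟨_, ⟨x, ⟨hx, h3⟩, rfl⟩, h4⟩⟩
    · exact ⟨h1, Or.inl h2⟩
    · exact ⟨h1, Or.inr ⟨x, hx, fun j hj => h3 j hj, h4⟩⟩

theorem card_tailSub [∀ i, NeZero (m i)] (H : AddSubgroup (∀ i, ZMod (m i))) (i : Fin k) :
    Nat.card (tailSub H i.1) = (m i / ld H i) * Nat.card (tailSub H (i.1 + 1)) := by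
  let f : tailSub H i.1 →+ ZMod (m i) :=
    (Pi.evalAddMonoidHom (fun i => ZMod (m i)) i).comp (tailSub H i.1).subtype
  have h1 : Nat.card (tailSub H i.1) = Nat.card f.range * Nat.card f.ker := by
    have h2 := AddSubgroup.card_eq_card_quotient_mul_card_addSubgroup f.ker
    rw [h2]
    congr 1
    exact Nat.card_congr (QuotientAddGroup.quotientKerEquivRange f).toEquiv
  have h3 : f.range = (tailSub H i.1).map (Pi.evalAddMonoidHom _ i) := by
    rw [AddMonoidHom.range_comp, AddSubgroup.range_subtype]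
  have h4 : Nat.card f.ker = Nat.card (tailSub H (i.1 + 1)) := by
    refine Nat.card_congr ⟨fun x => ⟨x.1.1, x.1.2.1, fun j hj => ?_⟩,
      fun x => ⟨⟨x.1, x.2.1, fun j hj => x.2.2 j (Nat.lt_succ_of_lt hj)⟩, ?_⟩, ?_, ?_⟩
    · rcases Nat.lt_succ_iff_lt_or_eq.1 hj with h | h
      · exact x.1.2.2 j h
      · have h5 : j = i := Fin.ext h
        subst h5
        exact x.2
    · exact x.2.2 i (Nat.lt_succ_self _)
    · intro x
      rfl
    · intro x
      rfl
  rw [h1, h3, h4, ld_eq, card_eq]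

/-- The order of a subgroup of a product of cyclic groups. -/
theorem card_echelon [∀ i, NeZero (m i)] (H : AddSubgroup (∀ i, ZMod (m i))) :
    Nat.card H = ∏ i : Fin k, m i / ld H i := by
  have h1 : ∀ n : ℕ, n ≤ k → Nat.card (tailSub H 0) =
      (∏ i ∈ (Finset.univ : Finset (Fin k)).filter (fun i => i.1 < n), m i / ld H i) *
        Nat.card (tailSub H n) := by
    intro n
    induction n with
    | zero =>
      intro _
      simp
    | succ n ih =>
      intro hn
      rw [ih (by omega), card_tailSub H ⟨n, hn⟩, ← mul_assoc]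
      congr 1
      have h2 : (Finset.univ : Finset (Fin k)).filter (fun i => i.1 < n + 1) =
          insert ⟨n, hn⟩ ((Finset.univ : Finset (Fin k)).filter (fun i => i.1 < n)) := by
        ext i
        simp only [Finset.mem_filter, Finset.mem_univ, true_and, Finset.mem_insert, Fin.ext_iff]
        omega
      rw [h2, Finset.prod_insert (by simp), mul_comm]
  have h2 : tailSub H 0 = H := by
    ext x
    rw [mem_tailSub]
    simp
  have h3 : Nat.card (tailSub H k) = 1 := by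
    have h4 : tailSub H k = ⊥ := by
      ext x
      rw [mem_tailSub, AddSubgroup.mem_bot]
      constructor
      · rintro ⟨-, h⟩
        exact funext fun j => h j j.2
      · rintro rfl
        exact ⟨H.zero_mem, fun _ _ => rfl⟩
    rw [h4]
    simp
  have h4 := h1 k le_rfl
  rw [h2, h3, mul_one] at h4
  rw [h4]
  congr 1
  ext i
  simp

theorem ld_dvd [∀ i, NeZero (m i)] (H : AddSubgroup (∀ i, ZMod (m i))) (i : Fin k) :
    ld H i ∣ m i := by
  rw [ld_eq]
  exact lead_dvd _ _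

end

end Pool.Agent.ABq
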